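import Pool.Agent.X203.OBS

namespace Pool.Agent.Results.MP_b2e8e7_an.SchreierFamily

open Filter Topology

section Defs

variable {X : Type*} [NormedAddCommGroup X] [NormedSpace ℝ X]

/-- `sup {‖x k - x l‖ : k, l ≥ n}` -/
noncomputable def osc (x : ℕ → X) (n : ℕ) : ℝ :=
  sSup {t : ℝ | ∃ k l : ℕ, n ≤ k ∧ n ≤ l ∧ t = ‖x k - x l‖}

/-- `ca (x_k)` -/
noncomputable def ca (x : ℕ → X) : ℝ := ⨅ n : ℕ, osc x n

/-- The Cesàro means: `mean x k` is the mean of the first `k + 1` terms of `x`. -/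
noncomputable def mean (x : ℕ → X) (k : ℕ) : X :=
  (1 / ((k : ℝ) + 1)) • ∑ i ∈ Finset.range (k + 1), x i

/-- `cca (x_k)` -/
noncomputable def cca (x : ℕ → X) : ℝ := ca (mean x)

/-- the infimum of `cca` over all subsequences -/
noncomputable def tcca (x : ℕ → X) : ℝ := ⨅ φ : {φ : ℕ → ℕ // StrictMono φ}, cca (x ∘ φ.1)

/-- `wu (x_k)`, for a sequence converging weakly to `a` -/
noncomputable def wu (x : ℕ → X) (a : X) : ℝ :=
  sInf {ε : ℝ | 0 < ε ∧ ∃ n : ℕ, ∀ f : X →L[ℝ] ℝ, ‖f‖ ≤ 1 →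
    {k : ℕ | ε < |f (x k - a)|}.encard ≤ n}

/-- the infimum of `wu` over all subsequences -/
noncomputable def twu (x : ℕ → X) (a : X) : ℝ :=
  ⨅ φ : {φ : ℕ → ℕ // StrictMono φ}, wu (x ∘ φ.1) a

/-- weak convergence of a sequence -/
def WeaklyTendsto (x : ℕ → X) (a : X) : Prop :=
  Tendsto (fun k => toWeakSpace ℝ X (x k)) atTop (𝓝 (toWeakSpace ℝ X a))

/-- `wbs (A)` -/
noncomputable def wbs (A : Set X) : ℝ :=
  sSup {t : ℝ | ∃ x : ℕ → X, (∀ k, x k ∈ A) ∧ (∃ a, WeaklyTendsto x a) ∧ t = tcca x}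

/-- `swu (A)` -/
noncomputable def swu (A : Set X) : ℝ :=
  sSup {t : ℝ | ∃ (x : ℕ → X) (a : X), (∀ k, x k ∈ A) ∧ WeaklyTendsto x a ∧ t = twu x a}

end Defs

/-- The Schreier family: finite sets `F` with `#F ≤ i` for all `i ∈ F`. -/
def S : Type := {F : Finset ℕ // ∀ i ∈ F, F.card ≤ i}

instance : TopologicalSpace S := ⊥
instance : DiscreteTopology S := ⟨rfl⟩

open scoped Classical in
/-- `x_k (F) = 1` if `k ∈ F`, and `0` otherwise -/
noncomputable def xk (k : ℕ) : BoundedContinuousFunction S ℝ :=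
  BoundedContinuousFunction.ofNormedAddCommGroupDiscrete
    (fun F => if k ∈ F.1 then (1 : ℝ) else 0) 1 (fun F => by split_ifs <;> simp)

theorem xk_apply (k : ℕ) (F : S) [Decidable (k ∈ F.1)] : xk k F = if k ∈ F.1 then (1 : ℝ) else 0 := by
  simp only [xk, BoundedContinuousFunction.coe_ofNormedAddCommGroupDiscrete]
  congr

theorem xk_mem (k : ℕ) (F : S) : 0 ≤ xk k F ∧ xk k F ≤ 1 := by
  classical
  rw [xk_apply]
  split_ifs <;> simp

/-- the set of the example -/
def A : Set (BoundedContinuousFunction S ℝ) := Set.range xk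

theorem A_mem {z : BoundedContinuousFunction S ℝ} (hz : z ∈ A) (F : S) : 0 ≤ z F ∧ z F ≤ 1 := by
  obtain ⟨k, rfl⟩ := hz
  exact xk_mem k F

theorem norm_le_one {z : BoundedContinuousFunction S ℝ} (hz : z ∈ A) : ‖z‖ ≤ 1 := by
  rw [BoundedContinuousFunction.norm_le zero_le_one]
  intro F
  have := A_mem hz F
  rw [Real.norm_eq_abs, abs_of_nonneg this.1]
  exact this.2

theorem mean_apply (x : ℕ → BoundedContinuousFunction S ℝ) (k : ℕ) (F : S) :
    mean x k F = (1 / ((k : ℝ) + 1)) * ∑ i ∈ Finset.range (k + 1), x i F := by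
  show (1 / ((k : ℝ) + 1)) * ((∑ i ∈ Finset.range (k + 1), x i) F) = _
  rw [BoundedContinuousFunction.sum_apply]

theorem osc_le {x : ℕ → BoundedContinuousFunction S ℝ} (hx : ∀ k, x k ∈ A) (n : ℕ) :
    osc (mean x) n ≤ 1 := by
  apply Real.sSup_le _ zero_le_one
  rintro t ⟨k, l, -, -, rfl⟩
  have hm : ∀ k F, 0 ≤ mean x k F ∧ mean x k F ≤ 1 := by
    intro k F
    rw [mean_apply]
    have h0 : (0 : ℝ) < (k : ℝ) + 1 := by positivity
    have h1 : 0 ≤ ∑ i ∈ Finset.range (k + 1), x i F :=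
      Finset.sum_nonneg fun i _ => (A_mem (hx i) F).1
    have h2 : ∑ i ∈ Finset.range (k + 1), x i F ≤ (k : ℝ) + 1 := by
      calc ∑ i ∈ Finset.range (k + 1), x i F ≤ ∑ i ∈ Finset.range (k + 1), (1 : ℝ) :=
            Finset.sum_le_sum fun i _ => (A_mem (hx i) F).2
        _ = (k : ℝ) + 1 := by simp
    refine ⟨by positivity, ?_⟩
    rw [one_div, inv_mul_le_iff₀ h0, mul_one]
    exact h2
  rw [BoundedContinuousFunction.norm_le zero_le_one]
  intro F
  have h1 := hm k F
  have h2 := hm l F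
  rw [BoundedContinuousFunction.coe_sub, Pi.sub_apply, Real.norm_eq_abs, abs_le]
  constructor <;> linarith [h1.1, h1.2, h2.1, h2.2]

theorem osc_nonneg {X : Type*} [NormedAddCommGroup X] (x : ℕ → X) [NormedSpace ℝ X] (n : ℕ) :
    0 ≤ osc x n := by
  apply Real.sSup_nonneg
  rintro t ⟨k, l, -, -, rfl⟩
  exact norm_nonneg _

theorem cca_nonneg {X : Type*} [NormedAddCommGroup X] (x : ℕ → X) [NormedSpace ℝ X] :
    0 ≤ cca x := Real.iInf_nonneg fun n => osc_nonneg _ n

theorem cca_le {x : ℕ → BoundedContinuousFunction S ℝ} (hx : ∀ k, x k ∈ A) : cca x ≤ 1 :=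
  (ciInf_le ⟨0, by rintro _ ⟨n, rfl⟩; exact osc_nonneg _ n⟩ 0).trans (osc_le hx 0)

theorem wbs_le : wbs A ≤ 1 := by
  apply Real.sSup_le _ zero_le_one
  rintro t ⟨x, hx, -, rfl⟩
  have h1 : tcca x ≤ cca (x ∘ id) :=
    ciInf_le (f := fun φ : {φ : ℕ → ℕ // StrictMono φ} => cca (x ∘ φ.1))
      ⟨0, by rintro _ ⟨n, rfl⟩; exact cca_nonneg _⟩ ⟨id, strictMono_id⟩
  have h2 : cca (x ∘ id) ≤ 1 := cca_le fun k => hx k
  exact h1.trans h2

/-! ### `x_k` is weakly null -/

/-- blocks -/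
theorem exists_block {M : Set ℕ} (hM : M.Infinite) (m : ℕ) :
    ∃ (B : ℕ → Finset ℕ) (N : ℕ → ℕ), ∀ i, (B i).card = m * (N i + 1) ∧
      (∀ k ∈ B i, k ∈ M ∧ N i < k ∧ k ≤ N (i + 1)) ∧ N i ≤ N (i + 1) := by
  classical
  have h1 : ∀ n : ℕ, ∃ T : Finset ℕ, T.card = m * (n + 1) ∧ ∀ k ∈ T, k ∈ M ∧ n < k := by
    intro n
    have hinf : (M \ Set.Iic n).Infinite := hM.sdiff (Set.finite_Iic n)
    obtain ⟨T, hT, hc⟩ := hinf.exists_subset_card_eq (m * (n + 1))
    refine ⟨T, hc, fun k hk => ?_⟩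
    have := hT hk
    exact ⟨this.1, by simpa using this.2⟩
  choose T hT1 hT2 using h1
  let N : ℕ → ℕ := fun i => Nat.rec 0 (fun _ n => max n ((T n).sup id)) i
  have hN : ∀ i, N (i + 1) = max (N i) ((T (N i)).sup id) := fun i => rfl
  refine ⟨fun i => T (N i), N, fun i => ⟨hT1 _, fun k hk => ⟨(hT2 _ k hk).1, (hT2 _ k hk).2, ?_⟩, ?_⟩⟩
  · rw [hN]
    exact le_max_of_le_right (Finset.le_sup (f := id) hk)
  · rw [hN]
    exact le_max_left _ _

theorem small_average {M : Set ℕ} (hM : M.Infinite) {m : ℕ} (hm : 0 < m) :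
    ∃ (s : Finset ℕ) (w : ℕ → ℝ), (∀ k ∈ s, k ∈ M) ∧ (∀ k ∈ s, 0 ≤ w k) ∧ ∑ k ∈ s, w k = 1 ∧
      ‖∑ k ∈ s, w k • xk k‖ ≤ 2 / m := by
  classical
  obtain ⟨B, N, hB⟩ := exists_block hM m
  have hNmono : Monotone N := monotone_nat_of_le_succ fun i => (hB i).2.2
  have hcard : ∀ i, (0 : ℝ) < (B i).card := by
    intro i
    rw [(hB i).1]
    positivity
  -- pairwise disjoint
  have hdis : ∀ i j, i ≠ j → Disjoint (B i) (B j) := by
    have : ∀ i j, i < j → Disjoint (B i) (B j) := by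
      intro i j hij
      rw [Finset.disjoint_left]
      intro k hi hj
      have h1 := ((hB i).2.1 k hi).2.2
      have h2 := ((hB j).2.1 k hj).2.1
      have h3 := hNmono (Nat.succ_le_of_lt hij)
      simp only [Nat.succ_eq_add_one] at h3
      omega
    intro i j hij
    rcases lt_or_gt_of_ne hij with h | h
    · exact this i j h
    · exact (this j i h).symm
  let w : ℕ → ℝ := fun k => ∑ i ∈ Finset.range m, if k ∈ B i then 1 / ((m : ℝ) * (B i).card) else 0
  have hmr : (0 : ℝ) < m := by exact_mod_cast hm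
  let s : Finset ℕ := (Finset.range m).biUnion B
  have hsum : ∀ z : ℕ → ℝ, ∑ k ∈ s, w k * z k =
      (1 / (m : ℝ)) * ∑ i ∈ Finset.range m, (1 / ((B i).card : ℝ)) * ∑ k ∈ B i, z k := by
    intro z
    simp only [w, Finset.sum_mul]
    rw [Finset.sum_comm, Finset.mul_sum]
    apply Finset.sum_congr rfl
    intro i hi
    have h1 : ∑ k ∈ s, (if k ∈ B i then 1 / ((m : ℝ) * (B i).card) else 0) * z k =
        ∑ k ∈ B i, (1 / ((m : ℝ) * (B i).card)) * z k := by
      rw [← Finset.sum_subset (s₁ := B i) (s₂ := s)]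
      · apply Finset.sum_congr rfl
        intro k hk
        rw [if_pos hk]
      · exact Finset.subset_biUnion_of_mem B hi
      · intro k _ hk
        rw [if_neg hk, zero_mul]
    rw [h1, ← Finset.mul_sum]
    have h2 := (hcard i).ne'
    field_simp
  refine ⟨s, w, ?_, ?_, ?_, ?_⟩
  · intro k hk
    obtain ⟨i, -, hki⟩ := Finset.mem_biUnion.1 hk
    exact ((hB i).2.1 k hki).1
  · intro k _
    apply Finset.sum_nonneg
    intro i _
    split_ifs
    · positivity
    · exact le_rfl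
  · have := hsum (fun _ => 1)
    simp only [mul_one] at this
    rw [this]
    have h1 : ∀ i ∈ Finset.range m, (1 / ((B i).card : ℝ)) * ∑ k ∈ B i, (1 : ℝ) = 1 := by
      intro i _
      rw [Finset.sum_const, nsmul_eq_mul, mul_one, one_div, inv_mul_cancel₀ (hcard i).ne']
    rw [Finset.sum_congr rfl h1]
    simp only [Finset.sum_const, Finset.card_range, nsmul_eq_mul, mul_one]
    field_simp
  · rw [BoundedContinuousFunction.norm_le (by positivity)]
    intro F
    have h1 : (∑ k ∈ s, w k • xk k) F = ∑ k ∈ s, w k * xk k F := by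
      rw [BoundedContinuousFunction.sum_apply]
      rfl
    rw [h1, hsum]
    -- terms
    set c : ℕ → ℝ := fun i => (1 / ((B i).card : ℝ)) * ∑ k ∈ B i, xk k F with hc
    have hc0 : ∀ i, 0 ≤ c i := by
      intro i
      simp only [hc]
      have : 0 ≤ ∑ k ∈ B i, xk k F := Finset.sum_nonneg fun k _ => (xk_mem k F).1
      have := hcard i
      positivity
    have hcs : ∀ i, ∑ k ∈ B i, xk k F = ((B i ∩ F.1).card : ℝ) := by
      intro i
      simp only [xk_apply]
      rw [Finset.sum_ite_mem, Finset.sum_const, nsmul_eq_mul, mul_one]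
    have hc1 : ∀ i, c i ≤ 1 := by
      intro i
      simp only [hc]
      rw [hcs, one_div, inv_mul_le_iff₀ (hcard i), mul_one]
      exact_mod_cast Finset.card_le_card Finset.inter_subset_left
    have hc2 : ∀ i j, j < i → (B j ∩ F.1).Nonempty → c i ≤ 1 / m := by
      intro i j hji ⟨k, hk⟩
      rw [Finset.mem_inter] at hk
      have h2 : F.1.card ≤ k := F.2 k hk.2
      have h3 := ((hB j).2.1 k hk.1).2.2
      have h4 : N (j + 1) ≤ N i := hNmono hji
      have h5 : ((B i ∩ F.1).card : ℝ) ≤ N i := by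
        have : (B i ∩ F.1).card ≤ N i :=
          (Finset.card_le_card Finset.inter_subset_right).trans (by omega)
        exact_mod_cast this
      simp only [hc]
      rw [hcs, one_div, inv_mul_le_iff₀ (hcard i), (hB i).1]
      push_cast
      have h6 : (m : ℝ) * ((N i : ℝ) + 1) * (1 / m) = (N i : ℝ) + 1 := by field_simp
      rw [h6]
      linarith
    have hc3 : ∑ i ∈ Finset.range m, c i ≤ 2 := by
      by_cases hex : ∃ j, (B j ∩ F.1).Nonempty
      · set j := Nat.find hex with hj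
        have hj1 := Nat.find_spec hex
        have hj2 : ∀ i < j, ¬ (B i ∩ F.1).Nonempty := fun i hi => Nat.find_min hex hi
        have h7 : ∀ i ∈ Finset.range m, c i ≤ (if i = j then 1 else 0) + 1 / m := by
          intro i _
          rcases lt_trichotomy i j with h | h | h
          · have h8 : B i ∩ F.1 = ∅ := Finset.not_nonempty_iff_eq_empty.1 (hj2 i h)
            simp only [hc]
            rw [hcs, h8, if_neg h.ne]
            simp
          · rw [if_pos h]
            have := hc1 i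
            have h9 : (0 : ℝ) < 1 / m := by positivity
            linarith
          · rw [if_neg h.ne', zero_add]
            exact hc2 i j h hj1
        calc ∑ i ∈ Finset.range m, c i ≤ ∑ i ∈ Finset.range m, ((if i = j then 1 else 0) + 1 / (m : ℝ)) :=
              Finset.sum_le_sum h7
          _ ≤ 2 := by
            rw [Finset.sum_add_distrib, Finset.sum_ite_eq', Finset.sum_const, Finset.card_range,
              nsmul_eq_mul, mul_one_div, div_self hmr.ne']
            split_ifs <;> norm_num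
      · push Not at hex
        rw [Finset.sum_eq_zero]
        · norm_num
        · intro i _
          simp only [hc]
          rw [hcs, hex i]
          simp
    rw [Real.norm_eq_abs, abs_of_nonneg (mul_nonneg (by positivity)
      (Finset.sum_nonneg fun i _ => hc0 i))]
    rw [one_div, inv_mul_le_iff₀ hmr]
    have : (m : ℝ) * (2 / m) = 2 := by field_simp
    rw [this]
    exact hc3

theorem finite_large (f : BoundedContinuousFunction S ℝ →L[ℝ] ℝ) {δ : ℝ} (hδ : 0 < δ) :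
    {k : ℕ | δ ≤ f (xk k)}.Finite := by
  by_contra hM
  have hM : {k : ℕ | δ ≤ f (xk k)}.Infinite := hM
  obtain ⟨m, hm⟩ := exists_nat_gt (2 * ‖f‖ / δ)
  have hm0 : 0 < m := by
    have : (0 : ℝ) ≤ 2 * ‖f‖ / δ := by positivity
    have h2 : (0 : ℝ) < m := lt_of_le_of_lt this hm
    exact_mod_cast h2
  have hmr : (0 : ℝ) < m := by exact_mod_cast hm0
  obtain ⟨s, w, hs, hw0, hw1, hn⟩ := small_average hM hm0
  have h1 : δ ≤ f (∑ k ∈ s, w k • xk k) := by
    rw [map_sum]
    calc δ = ∑ k ∈ s, w k * δ := by rw [← Finset.sum_mul, hw1, one_mul]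
      _ ≤ ∑ k ∈ s, f (w k • xk k) := by
        apply Finset.sum_le_sum
        intro k hk
        rw [map_smul, smul_eq_mul]
        exact mul_le_mul_of_nonneg_left (hs k hk) (hw0 k hk)
  have h2 : f (∑ k ∈ s, w k • xk k) ≤ ‖f‖ * (2 / m) := by
    calc f (∑ k ∈ s, w k • xk k) ≤ ‖f (∑ k ∈ s, w k • xk k)‖ := le_abs_self _
      _ ≤ ‖f‖ * ‖∑ k ∈ s, w k • xk k‖ := f.le_opNorm _
      _ ≤ ‖f‖ * (2 / m) := by gcongr
  rw [div_lt_iff₀ hδ] at hm
  have h3 : ‖f‖ * (2 / m) < δ := by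
    rw [mul_div_assoc', div_lt_iff₀ hmr]
    linarith
  linarith

theorem weaklyNull : WeaklyTendsto xk 0 := by
  unfold WeaklyTendsto
  rw [Pool.Agent.X203.tendsto_weak_iff]
  intro f
  rw [map_zero, Metric.tendsto_atTop]
  intro ε hε
  have h1 := finite_large f hε
  have h2 := finite_large (-f) hε
  obtain ⟨N, hN⟩ := (h1.union h2).bddAbove
  refine ⟨N + 1, fun k hk => ?_⟩
  rw [Real.dist_eq, sub_zero]
  by_contra hcon
  push Not at hcon
  have h3 : k ∈ {k : ℕ | ε ≤ f (xk k)} ∪ {k : ℕ | ε ≤ (-f) (xk k)} := by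
    rcases le_abs.1 hcon with h | h
    · exact Or.inl h
    · exact Or.inr h
  have := hN h3
  omega

/-! ### Lower bound for `swu` -/

theorem wu_ge {φ : ℕ → ℕ} (hφ : StrictMono φ) : 1 ≤ wu (xk ∘ φ) 0 := by
  classical
  apply le_csInf
  · refine ⟨2, two_pos, 0, fun f hf => ?_⟩
    have : {k : ℕ | (2 : ℝ) < |f ((xk ∘ φ) k - 0)|} = ∅ := by
      ext k
      simp only [Set.mem_ofPred_eq, Set.mem_empty_iff_false, iff_false, not_lt, sub_zero]
      calc |f ((xk ∘ φ) k)| = ‖f ((xk ∘ φ) k)‖ := (Real.norm_eq_abs _).symm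
        _ ≤ ‖f‖ * ‖(xk ∘ φ) k‖ := f.le_opNorm _
        _ ≤ 1 * 1 := by
            gcongr
            exact norm_le_one ⟨φ k, rfl⟩
        _ ≤ 2 := by norm_num
    rw [this]
    simp
  · rintro ε ⟨hε, n, hn⟩
    by_contra hlt
    push Not at hlt
    -- the Schreier set
    let F : Finset ℕ := (Finset.Icc (n + 1) (2 * n + 1)).image φ
    have hFc : F.card = n + 1 := by
      rw [Finset.card_image_of_injective _ hφ.injective, Nat.card_Icc]
      omega
    have hF : ∀ i ∈ F, F.card ≤ i := by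
      intro i hi
      obtain ⟨j, hj, rfl⟩ := Finset.mem_image.1 hi
      rw [Finset.mem_Icc] at hj
      rw [hFc]
      exact hj.1.trans (hφ.id_le j)
    let f : BoundedContinuousFunction S ℝ →L[ℝ] ℝ := LinearMap.mkContinuous
      { toFun := fun z => z ⟨F, hF⟩
        map_add' := fun x y => rfl
        map_smul' := fun r x => rfl } 1 (fun z => by
        rw [one_mul]; exact z.norm_coe_le_norm _)
    have hf : ‖f‖ ≤ 1 := LinearMap.mkContinuous_norm_le _ zero_le_one _
    have h1 := hn f hf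
    have h2 : ((Finset.Icc (n + 1) (2 * n + 1) : Finset ℕ) : Set ℕ) ⊆
        {k : ℕ | ε < |f ((xk ∘ φ) k - 0)|} := by
      intro k hk
      simp only [Set.mem_ofPred_eq, sub_zero]
      have h3 : f ((xk ∘ φ) k) = xk (φ k) ⟨F, hF⟩ := rfl
      rw [h3, xk_apply, if_pos (Finset.mem_image_of_mem φ (by exact_mod_cast hk))]
      simpa using hlt
    have h3 := (Set.encard_le_encard h2).trans h1
    rw [Set.encard_coe_eq_coe_finsetCard, Nat.card_Icc] at h3
    have h4 : 2 * n + 1 + 1 - (n + 1) ≤ n := by exact_mod_cast h3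
    omega

theorem twu_ge : 1 ≤ twu xk 0 := by
  have : Nonempty {φ : ℕ → ℕ // StrictMono φ} := ⟨⟨id, strictMono_id⟩⟩
  exact le_ciInf fun φ => wu_ge φ.2

theorem wu_nonneg {X : Type*} [NormedAddCommGroup X] [NormedSpace ℝ X] (x : ℕ → X) (a : X) :
    0 ≤ wu x a := Real.sInf_nonneg fun _ h => h.1.le

theorem twu_le {x : ℕ → BoundedContinuousFunction S ℝ} {a : BoundedContinuousFunction S ℝ}
    (hx : ∀ k, x k ∈ A) (ha : WeaklyTendsto x a) : twu x a ≤ 2 := by
  have h0 : twu x a ≤ wu (x ∘ id) a :=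
    ciInf_le (f := fun φ : {φ : ℕ → ℕ // StrictMono φ} => wu (x ∘ φ.1) a)
      ⟨0, by rintro _ ⟨n, rfl⟩; exact wu_nonneg _ _⟩ ⟨id, strictMono_id⟩
  refine h0.trans ?_
  apply csInf_le ⟨0, fun _ h => h.1.le⟩
  refine ⟨two_pos, 0, fun f hf => ?_⟩
  have hfx : ∀ k, |f (x k)| ≤ 1 := by
    intro k
    calc |f (x k)| = ‖f (x k)‖ := (Real.norm_eq_abs _).symm
      _ ≤ ‖f‖ * ‖x k‖ := f.le_opNorm _
      _ ≤ 1 * 1 := by
          gcongr
          exact norm_le_one (hx k)
      _ = 1 := one_mul 1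
  have hfa : |f a| ≤ 1 := by
    have h1 : Tendsto (fun k => |f (x k)|) atTop (𝓝 |f a|) :=
      (((Pool.Agent.X203.tendsto_weak_iff x a).1 ha) f).abs
    exact le_of_tendsto' h1 hfx
  have : {k : ℕ | (2 : ℝ) < |f ((x ∘ id) k - a)|} = ∅ := by
    ext k
    simp only [Set.mem_ofPred_eq, Set.mem_empty_iff_false, iff_false, not_lt]
    rw [map_sub]
    have h1 := abs_le.1 (hfx k)
    have h2 := abs_le.1 hfa
    rw [abs_le]
    constructor <;> simp only [Function.comp, id] <;> linarith [h1.1, h1.2, h2.1, h2.2]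
  rw [this]
  simp

theorem swu_ge : 1 ≤ swu A := by
  refine twu_ge.trans (le_csSup ⟨2, ?_⟩ ⟨xk, 0, fun k => ⟨k, rfl⟩, weaklyNull, rfl⟩)
  rintro _ ⟨x, a, hx, ha, rfl⟩
  exact twu_le hx ha

/-- There are a real Banach space and a bounded subset `A` with `wbs(A) ≤ 1 ≤ swu(A)`; in
particular `wbs(A) < 2 swu(A)`. -/
theorem result : ∃ (X : Type) (_ : NormedAddCommGroup X) (_ : NormedSpace ℝ X)
    (_ : CompleteSpace X) (A : Set X), Bornology.IsBounded A ∧ wbs A ≤ 1 ∧ 1 ≤ swu A := by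
  refine ⟨BoundedContinuousFunction S ℝ, inferInstance, inferInstance, inferInstance, A, ?_,
    wbs_le, swu_ge⟩
  rw [isBounded_iff_forall_norm_le]
  exact ⟨1, fun z hz => norm_le_one hz⟩

end Pool.Agent.Results.MP_b2e8e7_an.SchreierFamily
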